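import Pool.Agent.helper79.WB.SpecII

/-! # MP_bb5cc8_nt, row wb:II.NUMC: the final contradiction (real exponents) -/

set_option autoImplicit false

namespace Pool.Agent.WB

theorem NUMC_aux (P : ℝ → ℝ) (hadd : ∀ s t, P (s + t) = P s * P t) (hpos : ∀ s, 0 < P s)
    (hmono : ∀ s t, s ≤ t → P s ≤ P t) (h0 : P 0 = 1)
    (ξ lam ε δ : ℝ) (hlam : 0 < lam) (hlx : lam < ξ) (hε : 0 < ε) (hδ : 0 < δ)
    (he : 20 * δ ≤ ε) (hl : 20 * δ ≤ lam) (hP : 128 ≤ P δ) (hP5 : 5 / ξ ≤ P δ)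
    (r a b θ D : ℝ) (hr : 1 ≤ r) (ha : 0 ≤ a) (hθ : 1 ≤ θ) (hD : 64 ≤ D)
    (h1 : P (ξ - lam + ε) ≤ r) (h2 : a ≤ P (2 * ξ + 2 * lam + δ))
    (h3 : r * P (2 * lam - 4 * δ) ≤ θ) (h4 : r / 2 * P (2 * ξ + 4 * lam - 2 * δ) ≤ θ * b)
    (h5 : D ≤ P (5 * δ) * a / θ) :
    2 * (a * (P (3 * δ) * ((4 * D + 8) / ξ)) + (4 * r ^ 2) * D +
        2 * θ * (P (ε / 2) * (D ^ 2 + D * P ξ))) < θ * b := by
  have hξ : 0 < ξ := hlam.trans hlx
  have hr0 : 0 < r := by linarith
  have hθ0 : 0 < θ := by linarith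
  have hD0 : 0 < D := by linarith
  set W : ℝ := P (2 * ξ + 4 * lam - 2 * δ) with hW
  have hW0 : 0 < W := hpos _
  -- small powers
  have hsmall : ∀ t, t ≤ -δ → P t ≤ 1 / 128 := by
    intro t ht
    have h : P t ≤ P (-δ) := hmono _ _ ht
    have h' : P (-δ) * P δ = 1 := by rw [← hadd, neg_add_cancel, h0]
    have h'' : P (-δ) * 128 ≤ 1 := by
      calc P (-δ) * 128 ≤ P (-δ) * P δ := mul_le_mul_of_nonneg_left hP (hpos _).le
        _ = 1 := h'
    linarith
  -- `θ D ≤ P (5δ) a`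
  have hθD : θ * D ≤ P (5 * δ) * a := by
    have := mul_le_mul_of_nonneg_left h5 hθ0.le
    rwa [mul_div_cancel₀ _ hθ0.ne'] at this
  -- `r D ≤ P (2ξ + 10δ)`
  have hrD : r * D ≤ P (2 * ξ + 10 * δ) := by
    have e1 : P (2 * lam - 4 * δ) * (r * D) ≤ P (2 * lam - 4 * δ) * P (2 * ξ + 10 * δ) := by
      calc P (2 * lam - 4 * δ) * (r * D) = (r * P (2 * lam - 4 * δ)) * D := by ring
        _ ≤ θ * D := mul_le_mul_of_nonneg_right h3 hD0.le
        _ ≤ P (5 * δ) * a := hθD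
        _ ≤ P (5 * δ) * P (2 * ξ + 2 * lam + δ) := mul_le_mul_of_nonneg_left h2 (hpos _).le
        _ = P (2 * lam - 4 * δ) * P (2 * ξ + 10 * δ) := by
            rw [← hadd, ← hadd]
            congr 1
            ring
    exact le_of_mul_le_mul_left e1 (hpos _)
  -- `1 ≤ r P (-(ξ - lam + ε))`
  have hr1 : 1 ≤ r * P (-(ξ - lam + ε)) := by
    calc (1 : ℝ) = P (ξ - lam + ε) * P (-(ξ - lam + ε)) := by rw [← hadd, add_neg_cancel, h0]
      _ ≤ r * P (-(ξ - lam + ε)) := mul_le_mul_of_nonneg_right h1 (hpos _).le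
  -- `a D ≤ r W P (13δ - 2ε)`
  have haD : a * D ≤ r * W * P (13 * δ - 2 * ε) := by
    have e1 : a * D ≤ r * P (-(ξ - lam + ε)) * (r * P (-(ξ - lam + ε))) * (a * D) := by
      have h : 0 ≤ a * D := mul_nonneg ha hD0.le
      have h' : 1 ≤ r * P (-(ξ - lam + ε)) * (r * P (-(ξ - lam + ε))) :=
        one_le_mul_of_one_le_of_one_le hr1 hr1
      nlinarith
    calc a * D ≤ r * P (-(ξ - lam + ε)) * (r * P (-(ξ - lam + ε))) * (a * D) := e1
      _ = (r * (P (-(ξ - lam + ε)) * P (-(ξ - lam + ε)))) * (a * (r * D)) := by ring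
      _ ≤ (r * (P (-(ξ - lam + ε)) * P (-(ξ - lam + ε)))) *
            (P (2 * ξ + 2 * lam + δ) * P (2 * ξ + 10 * δ)) := by
          apply mul_le_mul_of_nonneg_left
          · exact mul_le_mul h2 hrD (mul_nonneg hr0.le hD0.le) (hpos _).le
          · exact mul_nonneg hr0.le (mul_nonneg (hpos _).le (hpos _).le)
      _ = r * W * P (13 * δ - 2 * ε) := by
          rw [hW, mul_assoc r (P _) (P _), ← hadd, ← hadd, ← hadd, mul_assoc r, ← hadd]
          congr 2
          ring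
  have hrW : 0 < r * W := mul_pos hr0 hW0
  -- T1
  have hT1 : a * (P (3 * δ) * ((4 * D + 8) / ξ)) ≤ r * W * (1 / 128) := by
    have e1 : (4 * D + 8) / ξ ≤ P δ * D := by
      calc (4 * D + 8) / ξ ≤ (5 * D) / ξ := by
            apply div_le_div_of_nonneg_right _ hξ.le
            linarith
        _ = 5 / ξ * D := by ring
        _ ≤ P δ * D := mul_le_mul_of_nonneg_right hP5 hD0.le
    calc a * (P (3 * δ) * ((4 * D + 8) / ξ)) ≤ a * (P (3 * δ) * (P δ * D)) :=
          mul_le_mul_of_nonneg_left (mul_le_mul_of_nonneg_left e1 (hpos _).le) ha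
      _ = (P (3 * δ) * P δ) * (a * D) := by ring
      _ ≤ (P (3 * δ) * P δ) * (r * W * P (13 * δ - 2 * ε)) :=
          mul_le_mul_of_nonneg_left haD (mul_nonneg (hpos _).le (hpos _).le)
      _ = r * W * P (17 * δ - 2 * ε) := by
          have : P (3 * δ) * P δ * P (13 * δ - 2 * ε) = P (17 * δ - 2 * ε) := by
            rw [← hadd, ← hadd]
            congr 1
            ring
          rw [← this]
          ring
      _ ≤ r * W * (1 / 128) := by
          apply mul_le_mul_of_nonneg_left (hsmall _ _) hrW.le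
          linarith
  -- T2
  have hT2 : (4 * r ^ 2) * D ≤ r * W * (4 / 128) := by
    calc (4 * r ^ 2) * D = 4 * r * (r * D) := by ring
      _ ≤ 4 * r * P (2 * ξ + 10 * δ) := mul_le_mul_of_nonneg_left hrD (by linarith)
      _ = 4 * (r * W * P (12 * δ - 4 * lam)) := by
          have : W * P (12 * δ - 4 * lam) = P (2 * ξ + 10 * δ) := by
            rw [hW, ← hadd]
            congr 1
            ring
          rw [mul_assoc r W, this]
          ring
      _ ≤ 4 * (r * W * (1 / 128)) := by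
          apply mul_le_mul_of_nonneg_left _ (by norm_num)
          apply mul_le_mul_of_nonneg_left (hsmall _ _) hrW.le
          linarith
      _ = r * W * (4 / 128) := by ring
  -- T3
  have hT3 : θ * (P (ε / 2) * D ^ 2) ≤ r * W * (1 / 128) := by
    calc θ * (P (ε / 2) * D ^ 2) = P (ε / 2) * ((θ * D) * D) := by ring
      _ ≤ P (ε / 2) * ((P (5 * δ) * a) * D) :=
          mul_le_mul_of_nonneg_left (mul_le_mul_of_nonneg_right hθD hD0.le) (hpos _).le
      _ = (P (ε / 2) * P (5 * δ)) * (a * D) := by ring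
      _ ≤ (P (ε / 2) * P (5 * δ)) * (r * W * P (13 * δ - 2 * ε)) :=
          mul_le_mul_of_nonneg_left haD (mul_nonneg (hpos _).le (hpos _).le)
      _ = r * W * P (18 * δ - 3 / 2 * ε) := by
          have : P (ε / 2) * P (5 * δ) * P (13 * δ - 2 * ε) = P (18 * δ - 3 / 2 * ε) := by
            rw [← hadd, ← hadd]
            congr 1
            ring
          rw [← this]
          ring
      _ ≤ r * W * (1 / 128) := by
          apply mul_le_mul_of_nonneg_left (hsmall _ _) hrW.le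
          linarith
  -- T4
  have hT4 : θ * (P (ε / 2) * (D * P ξ)) ≤ r * W * (1 / 128) := by
    have hP0 : 0 ≤ P (ε / 2) * P ξ := mul_nonneg (hpos _).le (hpos _).le
    have e0 : θ * (P (ε / 2) * (D * P ξ)) ≤
        P (ε / 2) * P ξ * (P (5 * δ) * P (2 * ξ + 2 * lam + δ)) := by
      calc θ * (P (ε / 2) * (D * P ξ)) = P (ε / 2) * P ξ * (θ * D) := by ring
        _ ≤ P (ε / 2) * P ξ * (P (5 * δ) * a) := mul_le_mul_of_nonneg_left hθD hP0
        _ ≤ P (ε / 2) * P ξ * (P (5 * δ) * P (2 * ξ + 2 * lam + δ)) :=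
            mul_le_mul_of_nonneg_left (mul_le_mul_of_nonneg_left h2 (hpos _).le) hP0
    have e1 : P (ε / 2) * P ξ * (P (5 * δ) * P (2 * ξ + 2 * lam + δ)) =
        P (ε / 2 + 3 * ξ + 2 * lam + 6 * δ) := by
      rw [← hadd, ← hadd, ← hadd]
      congr 1
      ring
    have e2 : P (ε / 2 + 3 * ξ + 2 * lam + 6 * δ) ≤
        r * P (-(ξ - lam + ε)) * P (ε / 2 + 3 * ξ + 2 * lam + 6 * δ) := by
      have := mul_le_mul_of_nonneg_right hr1 (hpos (ε / 2 + 3 * ξ + 2 * lam + 6 * δ)).le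
      linarith
    have e3 : r * P (-(ξ - lam + ε)) * P (ε / 2 + 3 * ξ + 2 * lam + 6 * δ) =
        r * W * P (8 * δ - lam - ε / 2) := by
      rw [hW, mul_assoc r, mul_assoc r, ← hadd, ← hadd]
      congr 2
      ring
    calc θ * (P (ε / 2) * (D * P ξ)) ≤ r * W * P (8 * δ - lam - ε / 2) := by
          rw [e1] at e0
          linarith
      _ ≤ r * W * (1 / 128) := by
          apply mul_le_mul_of_nonneg_left (hsmall _ _) hrW.le
          linarith
  have hfin : 2 * θ * (P (ε / 2) * (D ^ 2 + D * P ξ)) =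
      2 * (θ * (P (ε / 2) * D ^ 2)) + 2 * (θ * (P (ε / 2) * (D * P ξ))) := by ring
  rw [hfin]
  have h4' : r * W / 2 ≤ θ * b := by
    calc r * W / 2 = r / 2 * W := by ring
      _ ≤ θ * b := h4
  linarith

theorem NUMC : NUMC_stmt := by
  intro ξ lam ε δ hlam hlx hsum hε hδ he hl
  have htend : Filter.Tendsto (fun N : ℕ => (N : ℝ) ^ δ) Filter.atTop Filter.atTop :=
    (tendsto_rpow_atTop hδ).comp tendsto_natCast_atTop_atTop
  obtain ⟨N₁, hN₁⟩ := Filter.eventually_atTop.1 (htend.eventually_ge_atTop (max 128 (5 / ξ)))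
  refine ⟨max N₁ 1, ?_⟩
  intro N hN r a b θ D hr hθ hD h1 h2 h3 h4 h5
  have hN1 : 1 ≤ N := (le_max_right _ _).trans hN
  have hNr : (1 : ℝ) ≤ (N : ℝ) := by exact_mod_cast hN1
  have hN0 : (0 : ℝ) < (N : ℝ) := by linarith
  have hbig := hN₁ N ((le_max_left _ _).trans hN)
  have hmain := NUMC_aux (fun t => (N : ℝ) ^ t) (fun s t => Real.rpow_add hN0 s t)
    (fun s => Real.rpow_pos_of_pos hN0 s)
    (fun s t hst => Real.rpow_le_rpow_of_exponent_le hNr hst) (Real.rpow_zero _)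
    ξ lam ε δ hlam hlx hε hδ he hl ((le_max_left _ _).trans hbig) ((le_max_right _ _).trans hbig)
    (r : ℝ) (a : ℝ) (b : ℝ) (θ : ℝ) (D : ℝ) (by exact_mod_cast hr) (by positivity)
    (by exact_mod_cast hθ) (by exact_mod_cast hD) h1 h2 h3 h4 h5
  have hcast : ((4 * r ^ 2 : ℕ) : ℝ) = 4 * (r : ℝ) ^ 2 := by push_cast; ring
  rw [hcast]
  exact hmain

end Pool.Agent.WB
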