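import Pool.Agent.helper78.WB.SpecIII

/-! # MP_bb5cc8_nt, row wb:III.PRJ: `J` primes in `(x, 2^J x]` -/

set_option autoImplicit false

namespace Pool.Agent.WB

theorem PRJ : PRJ_stmt := by
  intro J x hx
  induction J with
  | zero => exact ⟨∅, rfl, by simp⟩
  | succ J ih =>
    obtain ⟨LL, hc, hL⟩ := ih
    have h0 : 2 ^ J * x ≠ 0 := by positivity
    obtain ⟨p, hp, h1, h2⟩ := Nat.exists_prime_lt_and_le_two_mul (2 ^ J * x) h0
    have hle : x ≤ 2 ^ J * x := Nat.le_mul_of_pos_left _ (by positivity)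
    have hnot : p ∉ LL := by
      intro hmem
      exact absurd (hL p hmem).2.2 (not_le.2 h1)
    refine ⟨insert p LL, by rw [Finset.card_insert_of_notMem hnot, hc], ?_⟩
    intro l hl
    have e : 2 ^ (J + 1) * x = 2 * (2 ^ J * x) := by rw [pow_succ]; ring
    rcases Finset.mem_insert.1 hl with rfl | hl
    · exact ⟨hp, lt_of_le_of_lt hle h1, by rw [e]; exact h2⟩
    · obtain ⟨a, b, c⟩ := hL l hl
      refine ⟨a, b, c.trans ?_⟩
      rw [e]
      omega

end Pool.Agent.WB
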