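import Pool.Agent.helper78.WB.Defs2

/-!
# Project wb, Part II (version 2): `PBN_stmt` implies the chart lemma `CL2_stmt`

Page: /team-store/MP_bb5cc8_wolff_helper78.md, Part II and section VERSION 2.

Row `X` is a file `Pool/Agent/<seat>/WB/<X>.lean`, namespace `Pool.Agent.WB`, with
`theorem X (h : Y_stmt) ... : X_stmt` (the rows used are named in the docstring; take them as
hypotheses). No double quotes in files, no `convert` / `congr!`, no `native_decide`.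
`F` is the set of edges `e = (ζ, η)`, `e.1 ∈ A`, `e.2 ∈ B`.
-/

set_option autoImplicit false

namespace Pool.Agent.WB

open MvPolynomial

/-- what is known about an edge: the determinant is a prime `≥ N ^ ξ`, the two lines have a common
lattice point -/
def Edge (N : ℕ) (ξ : ℝ) (e : V3 × V3) : Prop :=
  (dt e.1 e.2).natAbs.Prime ∧ (N : ℝ) ^ ξ ≤ ((dt e.1 e.2).natAbs : ℝ) ∧
    ∃ u v : ℤ, onL u v e.1 ∧ onL u v e.2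

/-- coprime first coordinates, size at most `N` -/
def Sm (N : ℕ) (ζ : V3) : Prop := IsCoprime (ζ 0) (ζ 1) ∧ ∀ i, |ζ i| ≤ (N : ℤ)

/-- coefficients of the Siegel form -/
def Cf (N D : ℕ) (G : MvPolynomial (Fin 3) ℤ) : Prop :=
  G ≠ 0 ∧ G.IsHomogeneous D ∧ ∀ μ, |coeff μ G| ≤ ((s3 D * N ^ D : ℕ) : ℤ)

/-- DY. Dyadic pigeonhole.
PROOF. `deg η = #{e ∈ F : e.2 = η}` is at most `A.card` (`e ↦ e.1` is injective on these edges, with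
values in `A`) and at least `1` for `η = e.2`. For `k ≤ Nat.log 2 A.card` let `B_k` be the `η ∈ B` with
`2 ^ k ≤ deg η < 2 ^ (k + 1)`. Every `e ∈ F` has `e.2 ∈ B_k` for exactly one such `k`
(`k = Nat.log 2 (deg e.2)`), so `F.card = ∑_k e_k`, `e_k = #{e ∈ F : e.2 ∈ B_k}`; take `k` with `e_k`
maximal, `θ = 2 ^ k`, `B' = B_k` (nonempty as `e_k > 0`, so `θ ≤ deg η ≤ A.card`). Finally
`e_k = ∑_{η ∈ B'} deg η ≤ 2 θ #B'` (`Finset.card_eq_sum_card_fiberwise`). -/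
def DY_stmt : Prop :=
  ∀ (A B : Finset V3) (F : Finset (V3 × V3)), F.Nonempty → (∀ e ∈ F, e.1 ∈ A ∧ e.2 ∈ B) →
    ∃ (θ : ℕ) (B' : Finset V3), 1 ≤ θ ∧ θ ≤ A.card ∧ B' ⊆ B ∧
      (∀ η ∈ B', θ ≤ (F.filter fun e => e.2 = η).card ∧ (F.filter fun e => e.2 = η).card < 2 * θ) ∧
      (F.filter fun e => e.2 ∈ B').card ≤ 2 * θ * B'.card ∧
      F.card ≤ (Nat.log 2 A.card + 1) * (F.filter fun e => e.2 ∈ B').card

/-- SAMP. Random sample (second moment).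
PROOF. If `B` is empty take `S = ∅`. Let `a = #A`, `β = #B`, `n_b = #(Nb b)`, `Ω` = all functions
`χ : A → Fin K` (`K ^ a` of them), `S_χ = {ζ ∈ A : χ ζ = 0}`, `m_b(χ) = #(Nb b ∩ S_χ)`. Number of `χ` with
`χ ζ = 0`: `K ^ a / K`; with `χ ζ = χ ζ' = 0` (`ζ ≠ ζ'`): `K ^ a / K ^ 2`. So, with averages over `Ω`:
`E #S = a / K`, `E m_b = n_b / K`, `E m_b^2 = n_b / K + n_b (n_b - 1) / K^2`, hence
`E (m_b - n_b / K)^2 = (n_b / K) (1 - 1 / K) ≤ n_b / K`. Put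
`W(χ) = #S K / (4 a) + ∑_{b ∈ B} (m_b - n_b / K)^2 (4 K^2 / n_b^2) (2 / β)`. Then
`E W ≤ 1 / 4 + ∑_b (4 K / n_b) (2 / β) ≤ 1 / 4 + 8 K / θ ≤ 1 / 2 < 1`, so some `χ` has `W(χ) < 1`: `#S < 4 a / K`
(if `a = 0` then `B` is empty, as `θ ≥ 1`), and every `b` with `m_b < n_b / (2 K)` contributes at least
`2 / β` to `W`, so there are fewer than `β / 2` of them. (Any other proof is fine, e.g. choose a random
colour class of a random function: sum over all `χ`.) -/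
def SAMP_stmt : Prop :=
  ∀ (A B : Finset V3) (Nb : V3 → Finset V3) (θ K : ℕ), 1 ≤ K → 32 * K ≤ θ →
    (∀ b ∈ B, Nb b ⊆ A ∧ θ ≤ (Nb b).card) →
    ∃ S : Finset V3, S ⊆ A ∧ K * S.card ≤ 4 * A.card ∧
      B.card ≤ 2 * (B.filter fun b => (Nb b).card ≤ 2 * K * (Nb b ∩ S).card).card

/-- MU. Few vectors with given determinant.
PROOF. For each of the two signs let `S₊ = {ζ ∈ S : dt ζ η = ± l}` (fixed sign). If `ζ, ζ₀ ∈ S₊` then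
`dt (ζ - ζ₀) η = 0`, and as `η 0, η 1` are coprime `(ζ 0 - ζ₀ 0, ζ 1 - ζ₀ 1) = t (η 0, η 1)` for an integer
`t`; `|t| L ≤ |t| max |η 0| |η 1| ≤ 2 X`. So `|t| ≤ 2 X / L`, at most `4 X / L + 1` values, and `ζ` is
determined by `ζ 0, ζ 1`. -/
def MU_stmt : Prop :=
  ∀ (η : V3) (l : ℕ) (S : Finset V3) (X L : ℝ), 0 < L → 0 ≤ X → IsCoprime (η 0) (η 1) →
    L ≤ max |((η 0 : ℤ) : ℝ)| |((η 1 : ℤ) : ℝ)| →
    (∀ ζ ∈ S, |((ζ 0 : ℤ) : ℝ)| ≤ X ∧ |((ζ 1 : ℤ) : ℝ)| ≤ X ∧ (dt ζ η).natAbs = l) →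
    (∀ ζ ∈ S, ∀ ζ' ∈ S, ζ 0 = ζ' 0 → ζ 1 = ζ' 1 → ζ = ζ') →
    (S.card : ℝ) ≤ 2 * (4 * (X / L) + 1)

/-- MUN. PROOF. `N ^ (ξ + δ) / N ^ (ξ - δ) = N ^ (2 δ)`; `2 (4 N^(2δ) + 1) ≤ 10 N^(2δ) ≤ N^(3δ)` as soon as
`N ^ δ ≥ 10`. -/
def MUN_stmt : Prop :=
  ∀ ξ δ : ℝ, 0 < δ → ∃ N₀ : ℕ, ∀ N : ℕ, N₀ ≤ N →
    2 * (4 * ((N : ℝ) ^ (ξ + δ) / (N : ℝ) ^ (ξ - δ)) + 1) ≤ (N : ℝ) ^ (3 * δ)

/-- CNT. Few primes divide a non-zero integer.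
PROOF. `P = S.image (natAbs of dt)`: a set of primes dividing `g`, so `∏ P` divides `|g|`
(`Finset.prod_primes_dvd`), `N ^ (ξ #P) ≤ ∏ P ≤ |g| ≤ N ^ E`, so `ξ #P ≤ E` (`2 ≤ N`). Every prime is the
value of at most `M` elements of `S`: `#S ≤ M #P`. -/
def CNT_stmt : Prop :=
  ∀ (N : ℕ) (ξ E M : ℝ) (g : ℤ) (S : Finset (V3 × V3)), 2 ≤ N → 0 < ξ → 0 ≤ M → g ≠ 0 →
    |(g : ℝ)| ≤ (N : ℝ) ^ E →
    (∀ e ∈ S, (dt e.1 e.2).natAbs.Prime ∧ (N : ℝ) ^ ξ ≤ ((dt e.1 e.2).natAbs : ℝ) ∧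
      dt e.1 e.2 ∣ g) →
    (∀ l : ℕ, ((S.filter fun e => (dt e.1 e.2).natAbs = l).card : ℝ) ≤ M) →
    (S.card : ℝ) ≤ M * (E / ξ)

/-- SG. Siegel's lemma for forms. Uses DIM3 (first part: number of exponents).
PROOF. `S` empty: `G = X 0 ^ D` (`s3 D * N ^ D ≥ 1`). Otherwise the matrix of the values at `ζ ∈ S` of the
monomials of degree `D` (columns: `{μ // μ.degree = D}`, finite with `s3 D` elements) has entries at most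
`N ^ D`; `Int.Matrix.exists_ne_zero_int_vec_norm_le`: exponent `#S / (s3 D - #S) ≤ 1`, base `≥ 1`, so there
is a non-zero integer solution with entries `≤ s3 D * N ^ D`; `G = ∑ t_μ monomial μ`. -/
def SG_stmt : Prop :=
  ∀ (N D : ℕ) (S : Finset V3), 1 ≤ N → (∀ ζ ∈ S, ∀ i, |ζ i| ≤ (N : ℤ)) → 2 * S.card ≤ s3 D →
    ∃ G : MvPolynomial (Fin 3) ℤ, Cf N D G ∧ ∀ ζ ∈ S, eval ζ G = 0

/-- DIV. The divisibility.
PROOF. `ζ = (x, y, w)`, `η = (x', y', w')`, `y u - x v = w`, `y' u - x' v = w'`. With `Δ = dt ζ η = x y' - x' y`: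
`w x' - w' x = - u Δ`, `w y' - w' y = - v Δ`. So mod the prime `l = |Δ|`: `x' ζ - x η` and `y' ζ - y η` are
`0`. One of `x, y` is prime to `l` (coprime), say `x`: `x ^ n p(η) = p(x η) ≡ p(x' ζ) = x' ^ n p(ζ) = 0` mod
`l` (homogeneity; `p(v) ≡ p(v')` mod `l` if `v ≡ v'` coordinatewise), so `l ∣ p(η)`. -/
def DIV_stmt : Prop :=
  ∀ (n : ℕ) (p : MvPolynomial (Fin 3) ℤ) (ζ η : V3) (u v : ℤ), p.IsHomogeneous n →
    IsCoprime (ζ 0) (ζ 1) → onL u v ζ → onL u v η → (dt ζ η).natAbs.Prime → eval ζ p = 0 →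
    dt ζ η ∣ eval η p

/-- VAN. The Siegel form vanishes at half of `B`. Uses SAMP, SG, DIV, CNT, SIZE (Part III).
PROOF. `Nb η` = the first components of the edges into `η` (`⊆ A`, as many as edges). SAMP gives `S ⊆ A`,
`K #S ≤ 4 #A`, so `2 #S ≤ s3 D` (`2 K #S ≤ 8 #A ≤ K s3 D`). SG: `G`. Let `η ∈ B` with
`#(Nb η) ≤ 2 K #(Nb η ∩ S)`, so `#(Nb η ∩ S) ≥ θ / (2 K)`. For `ζ ∈ Nb η ∩ S`: `eval ζ G = 0`, so
`dt ζ η ∣ eval η G` (DIV). Suppose `g = eval η G ≠ 0`. SIZE: `|g| ≤ s3 D (s3 D N^D) N^D ≤ N^(2 D + 6)` since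
`s3 D ≤ N ^ 3` (`D ≤ N`, `2 ≤ N`). CNT with the edges `(ζ, η)`, `ζ ∈ Nb η ∩ S`, and `E = 2 D + 6` gives
`#(Nb η ∩ S) ≤ M ((2 D + 6) / ξ) < θ / (2 K)`, contradiction. So `eval η G = 0` for all these `η`, at least
half of `B`. -/
def VAN_stmt : Prop :=
  ∀ (N D θ K : ℕ) (ξ M : ℝ) (A B : Finset V3) (F : Finset (V3 × V3)), 2 ≤ N → 0 < ξ → 0 ≤ M →
    D ≤ N → 1 ≤ K → 32 * K ≤ θ → 8 * A.card ≤ K * s3 D →
    M * ((2 * (D : ℝ) + 6) / ξ) < (θ : ℝ) / (2 * (K : ℝ)) →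
    (∀ e ∈ F, e.1 ∈ A ∧ e.2 ∈ B ∧ Edge N ξ e) → (∀ ζ ∈ A, Sm N ζ) → (∀ η ∈ B, Sm N η) →
    (∀ (η : V3) (l : ℕ),
      ((F.filter fun e => e.2 = η ∧ (dt e.1 e.2).natAbs = l).card : ℝ) ≤ M) →
    (∀ η ∈ B, θ ≤ (F.filter fun e => e.2 = η).card) →
    ∃ G : MvPolynomial (Fin 3) ℤ, Cf N D G ∧ B.card ≤ 2 * (B.filter fun η => eval η G = 0).card

/-- HF. Factors of forms are forms.
PROOF. `p, q ≠ 0`. Let `a` be the least and `a'` the largest degree of a non-zero homogeneous component of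
`p`, `b, b'` the same for `q`. The component of degree `a + b` of `p q` is `p_a q_b ≠ 0` (domain), the one of
degree `a' + b'` is `p_{a'} q_{b'} ≠ 0`; `p q` is homogeneous of degree `n`, so `a + b = n = a' + b'`, hence
`a = a'`, `b = b'`. (Alternative: the substitution `X i ↦ T X i` and the one variable fact that factors of
`c T^n` over a domain are `c' T^m`.) Then `p` is homogeneous of degree `a' = totalDegree`. -/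
def HF_stmt : Prop :=
  ∀ (p q : MvPolynomial (Fin 3) ℤ) (n : ℕ), (p * q).IsHomogeneous n → p * q ≠ 0 →
    p.IsHomogeneous p.totalDegree ∧ q.IsHomogeneous q.totalDegree ∧
      p.totalDegree + q.totalDegree = n

/-- FACT. Irreducible factors. Uses HF.
PROOF. `UniqueFactorizationMonoid (MvPolynomial (Fin 3) ℤ)`. `PP` = the different elements of
`normalizedFactors G` (or of `UniqueFactorizationMonoid.factors G`) of total degree `≥ 1`. HF with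
`G = p * (G / p)`: each is a form. The product of the different factors divides `G` (a sub-multiset of the
multiset of factors), so `∑ totalDegree ≤ D` (HF, `totalDegree` of a product of non-zero polynomials is the sum:
`MvPolynomial.totalDegree_mul_of_isDomain`). If `eval v G = 0` then `eval v` of some factor is `0` (the product
of the factors is associated to `G`), and this factor is not a constant (a non-zero constant does not vanish;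
an irreducible form of total degree `0` is a non-zero constant `C c`, `totalDegree_eq_zero_iff_eq_C`). -/
def FACT_stmt : Prop :=
  ∀ (G : MvPolynomial (Fin 3) ℤ) (D : ℕ), G ≠ 0 → G.IsHomogeneous D →
    ∃ PP : Finset (MvPolynomial (Fin 3) ℤ),
      (∀ p ∈ PP, Irreducible p ∧ p.IsHomogeneous p.totalDegree ∧ 1 ≤ p.totalDegree ∧ p ∣ G) ∧
      ∑ p ∈ PP, p.totalDegree ≤ D ∧ ∀ v : V3, eval v G = 0 → ∃ p ∈ PP, eval v p = 0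

/-- EXC. One integer divisible by all non-zero values of divisors of `G` at `v`.
PROOF. There is `x₀ : V3` with coordinates in `{0, ..., D}` and `eval x₀ G ≠ 0` (each variable has degree
`≤ D < D + 1`: `MvPolynomial.eq_zero_of_eval_zero_at_prod_finset` in
Mathlib/Combinatorics/Nullstellensatz, or `funext_set`). `φ : MvPolynomial (Fin 3) ℤ → ℤ[T]` the algebra
homomorphism `X i ↦ C (v i) + C (x₀ i) * T` (`aeval`). `φ G ≠ 0`: its coefficient at `T ^ D` is `eval x₀ G`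
(`G` homogeneous; monomial by monomial: `∏ (v_i + x_i T)^(μ_i)` has degree `≤ D` and `T^D`-coefficient
`∏ x_i^(μ_i)`). `g` = `trailingCoeff (φ G) ≠ 0`. If `G = p * h`: `φ G = φ p * φ h`,
`Polynomial.trailingCoeff_mul` (domain), and `trailingCoeff (φ p) = coeff 0 (φ p) = eval v p` because it is
`≠ 0`; so `eval v p ∣ g`. Size: for a polynomial `f ∈ ℤ[T]` let `‖f‖` be the sum of the absolute values of
the coefficients, subadditive and submultiplicative; `|g| ≤ ‖φ G‖ ≤ ∑_μ |coeff μ G| ∏ (|v_i| + x_i)^(μ_i)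
≤ s3 D (s3 D N^D) (N + D)^D` (DIM3: number of exponents) and `s3 D ≤ N^3`, `(N + D)^D ≤ (2 N)^D ≤ N^(2 D)`:
`|g| ≤ N^(3 D + 6)`. Uses DIM3. -/
def EXC_stmt : Prop :=
  ∀ (N D : ℕ) (G : MvPolynomial (Fin 3) ℤ) (v : V3), 2 ≤ N → D ≤ N → Cf N D G →
    (∀ i, |v i| ≤ (N : ℤ)) →
    ∃ g : ℤ, g ≠ 0 ∧ |g| ≤ (N : ℤ) ^ (4 * D + 8) ∧
      ∀ p : MvPolynomial (Fin 3) ℤ, p ∣ G → eval v p ≠ 0 → eval v p ∣ g

/-- EXE. Edges which leave the component of their end. Uses DIV, EXC, CNT.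
PROOF. Fix `ζ ∈ A` and let `S` be the edges `e ∈ F` with `e.1 = ζ`. EXC gives `g` for `v = ζ`. For `e ∈ S` take
`p`: `eval e.2 p = 0`, so (DIV with `e.2`, `e.1`; `dt e.2 e.1 = - dt e.1 e.2`) `dt e.1 e.2 ∣ eval ζ p ∣ g`. CNT
with `E = 4 D + 8`: `#S ≤ M ((4 D + 8) / ξ)`. Sum over `ζ ∈ A`. -/
def EXE_stmt : Prop :=
  ∀ (N D : ℕ) (ξ M : ℝ) (A B : Finset V3) (F : Finset (V3 × V3)) (G : MvPolynomial (Fin 3) ℤ),
    2 ≤ N → 0 < ξ → 0 ≤ M → D ≤ N → Cf N D G →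
    (∀ e ∈ F, e.1 ∈ A ∧ e.2 ∈ B ∧ Edge N ξ e) → (∀ ζ ∈ A, Sm N ζ) → (∀ η ∈ B, Sm N η) →
    (∀ (ζ : V3) (l : ℕ),
      ((F.filter fun e => e.1 = ζ ∧ (dt e.1 e.2).natAbs = l).card : ℝ) ≤ M) →
    (∀ e ∈ F, ∃ p : MvPolynomial (Fin 3) ℤ, p ∣ G ∧ (∃ n, p.IsHomogeneous n) ∧ eval e.2 p = 0 ∧
      eval e.1 p ≠ 0) →
    (F.card : ℝ) ≤ (A.card : ℝ) * (M * ((4 * (D : ℝ) + 8) / ξ))

/-- LINE. A linear form carries the edges of one lattice point only.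
PROOF. `p = a X 0 + b X 1 + c X 2`. For `e ∈ F₁`, `e = (ζ, η)` with common point `(u, v)`: from `p(ζ) = 0` and
`ζ 2 = ζ 1 u - ζ 0 v`: `(a - c v) ζ 0 + (b + c u) ζ 1 = 0`, the same for `η`; `dt ζ η ≠ 0` (a prime), so
`a = c v`, `b = - c u`, and `c ≠ 0` as `p ≠ 0`. So `(u, v)` is the same for all `e ∈ F₁`, and `F₁` is contained in
the set of edges of this point (`F₁` empty is clear). -/
def LINE_stmt : Prop :=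
  ∀ (N T : ℕ) (ξ : ℝ) (F F₁ : Finset (V3 × V3)) (p : MvPolynomial (Fin 3) ℤ), F₁ ⊆ F →
    p.IsHomogeneous 1 → p ≠ 0 → (∀ e ∈ F, Edge N ξ e) →
    (∀ u v : ℤ, {e : V3 × V3 | e ∈ F ∧ onL u v e.1 ∧ onL u v e.2}.ncard ≤ T) →
    (∀ e ∈ F₁, eval e.1 p = 0 ∧ eval e.2 p = 0) → F₁.card ≤ T

/-- COMB. Combination. Uses FACT, EXE, LINE.
PROOF. FACT: `PP`; `d_p = p.totalDegree ≤ D ≤ N`, `#PP ≤ ∑ d_p ≤ D`, `∑ d_p^2 ≤ (∑ d_p)^2 ≤ D^2`. `Z` = the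
`η ∈ B` with `eval η G = 0`; edges into `Z`: at least `θ #Z ≥ θ #B / 2`. Let `Z₂` be the `η ∈ Z` with a `p ∈ PP`,
`d_p ≥ 2`, `eval η p = 0`. `#Z₂ ≤ ∑_p c (d_p^2 + X) ≤ c (D^2 + D X)`, edges into `Z₂`: at most `2 θ #Z₂`. An edge
`e` with `e.2 ∈ Z \ Z₂` has a `p ∈ PP` with `d_p = 1` and `eval e.2 p = 0`. If `eval e.1 p ≠ 0` for some such `p`:
at most `#A (M ((4 D + 8) / ξ))` such edges (EXE, for the subset of these edges). Otherwise `eval e.1 p = 0` for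
such a `p`: at most `T` for each `p` (LINE), at most `T D` in all. -/
def COMB_stmt : Prop :=
  ∀ (N D θ T : ℕ) (ξ M c X : ℝ) (A B : Finset V3) (F : Finset (V3 × V3))
    (G : MvPolynomial (Fin 3) ℤ), 2 ≤ N → 0 < ξ → 0 ≤ M → D ≤ N → 0 ≤ c → 0 ≤ X → Cf N D G →
    (∀ e ∈ F, e.1 ∈ A ∧ e.2 ∈ B ∧ Edge N ξ e) → (∀ ζ ∈ A, Sm N ζ) → (∀ η ∈ B, Sm N η) →
    (∀ (ζ : V3) (l : ℕ),
      ((F.filter fun e => e.1 = ζ ∧ (dt e.1 e.2).natAbs = l).card : ℝ) ≤ M) →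
    (∀ u v : ℤ, {e : V3 × V3 | e ∈ F ∧ onL u v e.1 ∧ onL u v e.2}.ncard ≤ T) →
    (∀ η ∈ B, θ ≤ (F.filter fun e => e.2 = η).card ∧ (F.filter fun e => e.2 = η).card < 2 * θ) →
    B.card ≤ 2 * (B.filter fun η => eval η G = 0).card →
    (∀ (d : ℕ) (p : MvPolynomial (Fin 3) ℤ), Irreducible p → p.IsHomogeneous d → 2 ≤ d → d ≤ N →
      ∀ S : Finset V3, S ⊆ B → (∀ η ∈ S, eval η p = 0) →
        (S.card : ℝ) ≤ c * ((d : ℝ) ^ 2 + X)) →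
    (θ : ℝ) * (B.card : ℝ) ≤ 2 * ((A.card : ℝ) * (M * ((4 * (D : ℝ) + 8) / ξ)) +
      (T : ℝ) * (D : ℝ) + 2 * (θ : ℝ) * (c * ((D : ℝ) ^ 2 + (D : ℝ) * X)))

/-- NUMA. Lower bound for `θ`. `b` = number of elements of `B'`, `e` = number of edges into `B'`.
PROOF. `Nat.log 2 a + 1 ≤ N ^ δ` for large `N` (as `a ≤ N ^ 5`; `Nat.log 2 a ≤ 5 log N / log 2`), so
`e ≥ r N ^ (2 ξ + 4 lam - 2 δ)`, and `θ b ≥ e / 2`, and `θ ≥ e / (2 b)` with `2 b ≤ 2 N ^ (2 ξ + 2 lam + δ)`,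
`2 ≤ N ^ δ`. (`e = 0` or `b = 0` impossible as the left side is positive.) -/
def NUMA_stmt : Prop :=
  ∀ ξ lam δ : ℝ, 0 < lam → lam < ξ → ξ + lam < 1 → 0 < δ → δ ≤ 1 →
    ∃ N₀ : ℕ, ∀ N : ℕ, N₀ ≤ N → ∀ r a b θ e : ℕ, 1 ≤ r → 1 ≤ θ → θ ≤ a →
      (a : ℝ) ≤ (N : ℝ) ^ (2 * ξ + 2 * lam + δ) → (b : ℝ) ≤ (N : ℝ) ^ (2 * ξ + 2 * lam + δ) →
      e ≤ 2 * θ * b →
      (r : ℝ) * (N : ℝ) ^ (2 * ξ + 4 * lam - δ) ≤ (((Nat.log 2 a + 1) * e : ℕ) : ℝ) →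
      (r : ℝ) * (N : ℝ) ^ (2 * lam - 4 * δ) ≤ (θ : ℝ) ∧
        (r : ℝ) / 2 * (N : ℝ) ^ (2 * ξ + 4 * lam - 2 * δ) ≤ (θ : ℝ) * (b : ℝ)

/-- NUMB. Choice of the degree `D` and of the sampling parameter `K`.
PROOF. `D = ⌈64 a N^(4δ) / θ⌉`, `K = ⌈16 a / D^2⌉`. `64 ≤ D` as `a ≥ θ`. `D ≤ 65 a N^(4δ) / θ ≤ N^(5δ) a / θ`
(`N^δ ≥ 65`). `D ≤ N^(5δ) N^(2ξ+2lam+δ) / (r N^(2lam-4δ)) = N^(2ξ+10δ) / r ≤ N^(ξ+lam-ε+10δ) ≤ N`. `K ≥ 1`.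
`16 a / D^2 ≤ θ N^(-4δ) / (4 D)` as `D ≥ 64 a N^(4δ) / θ`. `1 ≤ θ N^(-4δ) / (4 D)`: the right side is
`≥ θ^2 N^(-9δ) / (4 a)` and `θ^2 ≥ r^2 N^(4lam-8δ) ≥ N^(2ξ+2lam+2ε-8δ) ≥ a N^(2ε-9δ)`, so it is
`≥ N^(2ε-18δ) / 4 ≥ N^δ / 4 ≥ 1`. So `K ≤ 16 a / D^2 + 1 ≤ θ N^(-4δ) / (2 D)`, hence `32 K ≤ θ` (`D ≥ 64`), and
`θ / (2 K) ≥ D N^(4δ) > N^(3δ) (2 D + 6) / ξ` as `2 D + 6 ≤ 3 D` and `N^δ > 3 / ξ`. `8 a ≤ K s3 D` as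
`K ≥ 16 a / D^2`, `s3 D ≥ D^2 / 2`. -/
def NUMB_stmt : Prop :=
  ∀ ξ lam ε δ : ℝ, 0 < lam → lam < ξ → ξ + lam < 1 → 0 < ε → 0 < δ → 20 * δ ≤ ε →
    ∃ N₀ : ℕ, ∀ N : ℕ, N₀ ≤ N → ∀ r a θ : ℕ, 1 ≤ r → 1 ≤ θ → θ ≤ a →
      (N : ℝ) ^ (ξ - lam + ε) ≤ (r : ℝ) → (a : ℝ) ≤ (N : ℝ) ^ (2 * ξ + 2 * lam + δ) →
      (r : ℝ) * (N : ℝ) ^ (2 * lam - 4 * δ) ≤ (θ : ℝ) →
      ∃ D K : ℕ, 64 ≤ D ∧ D ≤ N ∧ (D : ℝ) ≤ (N : ℝ) ^ (5 * δ) * a / θ ∧ 1 ≤ K ∧ 32 * K ≤ θ ∧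
        8 * a ≤ K * s3 D ∧
        (N : ℝ) ^ (3 * δ) * ((2 * (D : ℝ) + 6) / ξ) < (θ : ℝ) / (2 * (K : ℝ))

/-- NUMC. The final contradiction.
PROOF. With `T1 = a N^(3δ) (4 D + 8) / ξ ≤ a N^(4δ) D ≤ a^2 N^(9δ) / θ ≤ N^(4ξ+2lam+15δ) / r ≤
r N^(2ξ+4lam+15δ-2ε)` (`4 D + 8 ≤ 5 D`, `N^δ ≥ 5/ξ`; `1 / r ≤ r N^(-2ξ+2lam-2ε)`);
`T2 = 4 r^2 D ≤ 4 r N^(2ξ+10δ)`; `T3 = 2 θ N^(ε/2) D^2 ≤ 2 N^(ε/2+10δ) a^2 / θ ≤ 2 r N^(2ξ+4lam+ε/2+16δ-2ε)`;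
`T4 = 2 θ N^(ε/2) D N^ξ ≤ 2 N^(ε/2+ξ+5δ) a ≤ 2 N^(ε/2+3ξ+2lam+6δ) ≤ 2 r N^(2ξ+3lam+6δ-ε/2)`.
Each `T_i ≤ (r / 32) N^(2ξ+4lam-2δ)` since `N^δ ≥ 128`, `20 δ ≤ ε`, `20 δ ≤ lam`: the exponents compare as
`15δ - 2ε ≤ -3δ`, `10δ - 4lam ≤ -3δ`, `16δ - 3ε/2 ≤ -3δ`, `6δ - lam - ε/2 ≤ -3δ`. So
`2 (T1 + T2 + T3 + T4) ≤ (r / 4) N^(2ξ+4lam-2δ) < (r / 2) N^(2ξ+4lam-2δ) ≤ θ b`. -/
def NUMC_stmt : Prop :=
  ∀ ξ lam ε δ : ℝ, 0 < lam → lam < ξ → ξ + lam < 1 → 0 < ε → 0 < δ → 20 * δ ≤ ε → 20 * δ ≤ lam →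
    ∃ N₀ : ℕ, ∀ N : ℕ, N₀ ≤ N → ∀ r a b θ D : ℕ, 1 ≤ r → 1 ≤ θ → 64 ≤ D →
      (N : ℝ) ^ (ξ - lam + ε) ≤ (r : ℝ) → (a : ℝ) ≤ (N : ℝ) ^ (2 * ξ + 2 * lam + δ) →
      (r : ℝ) * (N : ℝ) ^ (2 * lam - 4 * δ) ≤ (θ : ℝ) →
      (r : ℝ) / 2 * (N : ℝ) ^ (2 * ξ + 4 * lam - 2 * δ) ≤ (θ : ℝ) * (b : ℝ) →
      (D : ℝ) ≤ (N : ℝ) ^ (5 * δ) * a / θ →
      2 * ((a : ℝ) * ((N : ℝ) ^ (3 * δ) * ((4 * (D : ℝ) + 8) / ξ)) +
        ((4 * r ^ 2 : ℕ) : ℝ) * (D : ℝ) +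
        2 * (θ : ℝ) * ((N : ℝ) ^ (ε / 2) * ((D : ℝ) ^ 2 + (D : ℝ) * (N : ℝ) ^ ξ))) <
        (θ : ℝ) * (b : ℝ)

/-- CLA. Assembly: `CL2_stmt`. Uses DY, MU, MUN, VAN, COMB, NUMA, NUMB, NUMC and `PBN_stmt`.
PROOF. `δ_B, N_B` from `PBN_stmt` for `ξ` and `ε / 2`; `δ = min` of `δ_B, ε / 20, lam / 20, 1 - ξ, 1`; `N₀` the
maximum of all. Suppose `F.card ≥ r N^(2ξ+4lam-δ) > 0`. DY: `θ`, `B'`; `F' = F.filter (e.2 ∈ B')` (for `η ∈ B'` the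
edges of `F'` into `η` are those of `F`); `a = A.card`, `b = B'.card`, `e = F'.card`. NUMA, NUMB: `D`, `K`. `Sm N`
from `Box` (`N^(ξ+δ) ≤ N`). `M = N^(3δ)`: MU with `X = N^(ξ+δ)`, `L = N^(ξ-δ)` and MUN; for given `η` (if there
is an edge into `η` then `η ∈ B`; otherwise the filter is empty) the first ends of the edges into `η` with
`|dt| = l` satisfy the last hypothesis of MU by the first injectivity hypothesis of `CL2_stmt` on `F`; for given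
`ζ` use `dt η ζ = - dt ζ η` and the second one. VAN for `A, B', F'`: `G`. COMB for `A, B', F'`, `T = 4 r^2`,
`c = N^(ε/2)`, `X = N^ξ` (the points on a form of degree `d ≥ 2`: `PBN_stmt`; subsets of `B` are `NP`, `Box` with `δ`
implies `Box` with `δ_B`). NUMC: contradiction. -/
def CLA_stmt : Prop :=
  DY_stmt → MU_stmt → MUN_stmt → VAN_stmt → COMB_stmt → NUMA_stmt → NUMB_stmt → NUMC_stmt →
    PBN_stmt → CL2_stmt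

end Pool.Agent.WB
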